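import Pool.Agent.Q81.SumSq
import Mathlib.Analysis.Convex.Extreme
import Mathlib.RingTheory.Ideal.Quotient.Operations

set_option autoImplicit false

open MvPolynomial

namespace Pool.Agent.Results.MP_982b0b_ag.MixedFace

open Pool.Agent.Q81.SumSq

/-- The real points (affine cone) of the subscheme of `ℙⁿ` defined by `I`. -/
def realZeros {n : ℕ} (I : Ideal (MvPolynomial (Fin (n + 1)) ℝ)) : Set (Fin (n + 1) → ℝ) :=
  {x | ∀ f ∈ I, eval x f = 0}

/-- A totally real variety `X ⊆ ℙⁿ`, given by its homogeneous vanishing ideal `I`: the ideal `I` is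
homogeneous, and it consists of all polynomials vanishing on the real points of `X` (that is, `X` is
reduced and its real points are Zariski dense). -/
structure IsTotallyReal {n : ℕ} (I : Ideal (MvPolynomial (Fin (n + 1)) ℝ)) : Prop where
  homogeneous : ∀ f ∈ I, ∀ k, homogeneousComponent k f ∈ I
  dense : ∀ f, (∀ x ∈ realZeros I, eval x f = 0) → f ∈ I

/-- The homogeneous coordinate ring `ℝ[X]`. -/
abbrev CoordRing {n : ℕ} (I : Ideal (MvPolynomial (Fin (n + 1)) ℝ)) : Type :=
  MvPolynomial (Fin (n + 1)) ℝ ⧸ I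

/-- The graded piece `ℝ[X]_m`. -/
noncomputable def piece {n : ℕ} (I : Ideal (MvPolynomial (Fin (n + 1)) ℝ)) (m : ℕ) :
    Submodule ℝ (CoordRing I) :=
  (homogeneousSubmodule (Fin (n + 1)) ℝ m).map (Ideal.Quotient.mkₐ ℝ I).toLinearMap

/-- `F ∈ ℝ[X]` is nonnegative on `X(ℝ)`. -/
def Nonneg {n : ℕ} (I : Ideal (MvPolynomial (Fin (n + 1)) ℝ)) (F : CoordRing I) : Prop :=
  ∀ f : MvPolynomial (Fin (n + 1)) ℝ, Ideal.Quotient.mk I f = F → ∀ x ∈ realZeros I, 0 ≤ eval x f

/-- `F` is a sum of squares of elements of `ℝ[X]_m`. -/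
def IsSOS {n : ℕ} (I : Ideal (MvPolynomial (Fin (n + 1)) ℝ)) (m : ℕ) (F : CoordRing I) : Prop :=
  ∃ (r : ℕ) (G : Fin r → CoordRing I), (∀ i, G i ∈ piece I m) ∧ F = ∑ i, G i ^ 2

/-- A nonnegative form `F ∈ ℝ[X]_{2m}` is stubborn if no odd power of it is a sum of squares. -/
def IsStubborn {n : ℕ} (I : Ideal (MvPolynomial (Fin (n + 1)) ℝ)) (m : ℕ) (F : CoordRing I) :
    Prop :=
  F ∈ piece I (2 * m) ∧ Nonneg I F ∧ ∀ k : ℕ, Odd k → ¬ IsSOS I (m * k) (F ^ k)

/-- The cone `P_X` of nonnegative quadratic forms on `X`. -/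
def nonnegCone {n : ℕ} (I : Ideal (MvPolynomial (Fin (n + 1)) ℝ)) : Set (CoordRing I) :=
  {F | F ∈ piece I 2 ∧ Nonneg I F}

/-- `𝓕` is a face of the convex set `P`: a nonempty convex extreme subset. -/
def IsFace {V : Type} [AddCommGroup V] [Module ℝ V] (P 𝓕 : Set V) : Prop :=
  𝓕.Nonempty ∧ Convex ℝ 𝓕 ∧ IsExtreme ℝ P 𝓕

/-- The (algebraic) relative interior of a convex set: the points `x` such that every segment
`[y, x]` with `y` in the set can be prolonged beyond `x` inside the set.  For convex sets of finite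
dimension this is the usual relative interior. -/
def relInterior {V : Type} [AddCommGroup V] [Module ℝ V] (C : Set V) : Set V :=
  {x | x ∈ C ∧ ∀ y ∈ C, ∃ ε : ℝ, 0 < ε ∧ x + ε • (x - y) ∈ C}

/-- The points of the affine cone over the surface `X ⊆ ℙ⁶`. -/
def pt (s t u v : ℝ) : Fin 7 → ℝ := ![s ^ 2, s * t, t ^ 2, s * u, t * u, s * v, t * v]

/-- The vanishing ideal of the surface `X ⊆ ℙ⁶`, the closure of the set of points
`(s² : st : t² : su : tu : sv : tv)` with `u² + v² + t² = s²`. -/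
def surf : Ideal (MvPolynomial (Fin 7) ℝ) where
  carrier := {f | ∀ s t u v : ℝ, u ^ 2 + v ^ 2 + t ^ 2 = s ^ 2 → eval (pt s t u v) f = 0}
  add_mem' := by
    intro a b ha hb s t u v h
    rw [map_add, ha s t u v h, hb s t u v h, add_zero]
  zero_mem' := by
    intro s t u v _
    rw [map_zero]
  smul_mem' := by
    intro c a ha s t u v h
    rw [smul_eq_mul, map_mul, ha s t u v h, mul_zero]

lemma mem_surf (f : MvPolynomial (Fin 7) ℝ) : f ∈ surf ↔
    ∀ s t u v : ℝ, u ^ 2 + v ^ 2 + t ^ 2 = s ^ 2 → eval (pt s t u v) f = 0 := Iff.rfl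

lemma polynomial_eval_aeval {n : ℕ} (g : Fin n → Polynomial ℝ) (x : ℝ)
    (q : MvPolynomial (Fin n) ℝ) : (aeval g q).eval x = eval (fun i => (g i).eval x) q := by
  induction q using MvPolynomial.induction_on with
  | C a => simp
  | add p q hp hq => rw [map_add, map_add, Polynomial.eval_add, hp, hq]
  | mul_X p i hp => rw [map_mul, map_mul, Polynomial.eval_mul, hp, aeval_X, eval_X]

lemma eval_smul_of_homogeneous {n : ℕ} {f : MvPolynomial (Fin n) ℝ} (c : ℝ) (x : Fin n → ℝ)
    {k : ℕ} (hf : f.IsHomogeneous k) : eval (fun i => c * x i) f = c ^ k * eval x f := by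
  have h := congrArg (Polynomial.eval c) (aeval_line_of_homogeneous f k hf x)
  rw [polynomial_eval_aeval] at h
  simp only [Polynomial.eval_mul, Polynomial.eval_C, Polynomial.eval_X, Polynomial.eval_pow] at h
  rw [mul_comm (c ^ k), ← h]
  congr 2
  funext i
  ring

lemma pt_smul (w s t u v : ℝ) :
    pt (w * s) (w * t) (w * u) (w * v) = fun i => pt s t u v i * w ^ 2 := by
  funext i
  fin_cases i <;> simp only [pt] <;> simp <;> ring

lemma surf_totallyReal : IsTotallyReal (n := 6) surf := by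
  refine ⟨?_, ?_⟩
  · intro f hf k s t u v h
    rw [← aeval_line_coeff]
    have hz : aeval (fun i => Polynomial.C (pt s t u v i) * (Polynomial.X : Polynomial ℝ)) f = 0 := by
      apply Polynomial.eq_zero_of_infinite_isRoot
      apply Set.Infinite.mono _ (Set.Ioi_infinite (0 : ℝ))
      intro l hl
      have hl' : (0 : ℝ) < l := hl
      obtain ⟨w, hw⟩ : ∃ w : ℝ, w ^ 2 = l := ⟨Real.sqrt l, Real.sq_sqrt hl'.le⟩
      subst hw
      have h1 := hf (w * s) (w * t) (w * u) (w * v) (by linear_combination w ^ 2 * h)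
      rw [pt_smul] at h1
      change Polynomial.eval (w ^ 2) _ = 0
      rw [← h1, polynomial_eval_aeval]
      simp
    rw [hz, Polynomial.coeff_zero]
  · intro f hf s t u v h
    apply hf
    intro g hg
    exact hg s t u v h

/-- The quadric `F₁ = (su)² + (tu)²`. -/
noncomputable def f₁ : MvPolynomial (Fin 7) ℝ := X 3 ^ 2 + X 4 ^ 2

/-- The quadric `F₂ = u² (4 s² - t²)`. -/
noncomputable def f₂ : MvPolynomial (Fin 7) ℝ := C 4 * X 3 ^ 2 - X 4 ^ 2

/-- Relations on the real points of the surface. -/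
lemma rel (y : Fin 7 → ℝ) (hy : y ∈ realZeros (n := 6) surf) : y 4 ^ 2 ≤ y 3 ^ 2 := by
  have r1 : y 0 * y 2 - y 1 ^ 2 = 0 := by
    have := hy (X 0 * X 2 - X 1 ^ 2) (by
      intro s t u v _
      simp [pt]; ring)
    simpa using this
  have r2 : y 1 * y 3 - y 0 * y 4 = 0 := by
    have := hy (X 1 * X 3 - X 0 * X 4) (by
      intro s t u v _
      simp [pt]; ring)
    simpa using this
  have r3 : y 3 ^ 2 + y 5 ^ 2 - (y 0 ^ 2 - y 1 ^ 2) = 0 := by
    have := hy (X 3 ^ 2 + X 5 ^ 2 - (X 0 ^ 2 - X 1 ^ 2)) (by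
      intro s t u v h
      simp [pt]; linear_combination s ^ 2 * h)
    simpa using this
  have r4 : y 4 ^ 2 + y 6 ^ 2 - (y 0 * y 2 - y 2 ^ 2) = 0 := by
    have := hy (X 4 ^ 2 + X 6 ^ 2 - (X 0 * X 2 - X 2 ^ 2)) (by
      intro s t u v h
      simp [pt]; linear_combination t ^ 2 * h)
    simpa using this
  by_cases h0 : y 0 = 0
  · rw [h0] at r4
    have : y 4 ^ 2 = 0 := by nlinarith [sq_nonneg (y 4), sq_nonneg (y 6), sq_nonneg (y 2)]
    rw [this]
    exact sq_nonneg _
  · have h1 : y 0 ^ 2 * y 4 ^ 2 ≤ y 0 ^ 2 * y 3 ^ 2 := by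
      have h2 : y 0 ^ 2 * y 4 ^ 2 = y 1 ^ 2 * y 3 ^ 2 := by
        linear_combination (-(y 1 * y 3) - y 0 * y 4) * r2
      rw [h2]
      apply mul_le_mul_of_nonneg_right _ (sq_nonneg _)
      nlinarith [sq_nonneg (y 3), sq_nonneg (y 5)]
    have h3 : 0 < y 0 ^ 2 := by positivity
    exact le_of_mul_le_mul_left h1 h3

/-- Every form `g` restricted to the curve `s = 1`, `v = 0` has the shape `E(t) + u O(t)`. -/
lemma exists_E_O (g : MvPolynomial (Fin 7) ℝ) : ∃ E O : Polynomial ℝ, ∀ t u : ℝ,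
    u ^ 2 + t ^ 2 = 1 → eval (pt 1 t u 0) g = E.eval t + u * O.eval t := by
  induction g using MvPolynomial.induction_on with
  | C a => exact ⟨Polynomial.C a, 0, fun t u _ => by simp⟩
  | add p q hp hq =>
    obtain ⟨E1, O1, h1⟩ := hp
    obtain ⟨E2, O2, h2⟩ := hq
    refine ⟨E1 + E2, O1 + O2, fun t u h => ?_⟩
    rw [map_add, h1 t u h, h2 t u h, Polynomial.eval_add, Polynomial.eval_add]
    ring
  | mul_X p i hp =>
    obtain ⟨E, O, h1⟩ := hp
    fin_cases i
    · refine ⟨E, O, fun t u h => ?_⟩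
      rw [map_mul, h1 t u h, eval_X]
      simp [pt]
    · refine ⟨E * Polynomial.X, O * Polynomial.X, fun t u h => ?_⟩
      rw [map_mul, h1 t u h, eval_X]
      simp [pt]
      ring
    · refine ⟨E * Polynomial.X ^ 2, O * Polynomial.X ^ 2, fun t u h => ?_⟩
      rw [map_mul, h1 t u h, eval_X]
      simp [pt]
      ring
    · refine ⟨O * (1 - Polynomial.X ^ 2), E, fun t u h => ?_⟩
      rw [map_mul, h1 t u h, eval_X]
      simp [pt]
      linear_combination (Polynomial.eval t O) * h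
    · refine ⟨O * (1 - Polynomial.X ^ 2) * Polynomial.X, E * Polynomial.X, fun t u h => ?_⟩
      rw [map_mul, h1 t u h, eval_X]
      simp [pt]
      linear_combination (Polynomial.eval t O) * t * h
    · refine ⟨0, 0, fun t u h => ?_⟩
      rw [map_mul, h1 t u h, eval_X]
      simp [pt]
    · refine ⟨0, 0, fun t u h => ?_⟩
      rw [map_mul, h1 t u h, eval_X]
      simp [pt]

/-- If a sum of squares of real polynomials is constant, all the polynomials are constant. -/
lemma const_of_sum_sq {ι : Type} (s : Finset ι) (P : ι → Polynomial ℝ) (c : ℝ)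
    (h : ∑ i ∈ s, P i ^ 2 = Polynomial.C c) : ∀ i ∈ s, ∃ a, P i = Polynomial.C a := by
  classical
  set N := s.sup (fun i => (P i).natDegree) with hN
  have hle : ∀ i ∈ s, (P i).natDegree ≤ N := fun i hi =>
    Finset.le_sup (f := fun i => (P i).natDegree) hi
  by_cases h0 : N = 0
  · intro i hi
    have := hle i hi
    exact ⟨_, Polynomial.eq_C_of_natDegree_le_zero (by omega)⟩
  · exfalso
    have hcoef : ∑ i ∈ s, ((P i).coeff N) ^ 2 = 0 := by
      have h1 := congrArg (fun p => Polynomial.coeff p (N + N)) h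
      simp only [Polynomial.finsetSum_coeff] at h1
      rw [Polynomial.coeff_C, if_neg (by omega)] at h1
      rw [← h1]
      refine Finset.sum_congr rfl (fun i hi => ?_)
      rw [sq, sq, Polynomial.coeff_mul_add_eq_of_natDegree_le (hle i hi) (hle i hi)]
    have hz : ∀ i ∈ s, (P i).coeff N = 0 := fun i hi => by
      have := (Finset.sum_eq_zero_iff_of_nonneg (fun i _ => sq_nonneg _)).mp hcoef i hi
      exact pow_eq_zero_iff (by norm_num) |>.mp this
    have hlt : ∀ i ∈ s, (P i).natDegree < N := by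
      intro i hi
      refine lt_of_le_of_ne (hle i hi) (fun he => ?_)
      have h2 := hz i hi
      rw [← he, Polynomial.coeff_natDegree, Polynomial.leadingCoeff_eq_zero] at h2
      rw [h2, Polynomial.natDegree_zero] at he
      exact h0 he.symm
    have : N < N := by
      conv_lhs => rw [hN]
      exact (Finset.sup_lt_iff (by rw [bot_eq_zero]; omega)).mpr hlt
    exact lt_irrefl _ this

lemma stubborn_aux (k : ℕ) (hk : Odd k) (r : ℕ) (g : Fin r → MvPolynomial (Fin 7) ℝ)
    (hg : ∀ i, (g i).IsHomogeneous k)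
    (h : ∀ s t u v : ℝ, u ^ 2 + v ^ 2 + t ^ 2 = s ^ 2 →
      (u ^ 2 * (4 * s ^ 2 - t ^ 2)) ^ k = ∑ i, (eval (pt s t u v) (g i)) ^ 2) : False := by
  -- symmetry: on `s = 1`, `v = 0` each `g i` is odd in `u`
  have hodd : ∀ i, ∀ t u : ℝ, 0 < u → u ^ 2 + t ^ 2 = 1 →
      eval (pt 1 t (-u) 0) (g i) = - eval (pt 1 t u 0) (g i) := by
    intro i t u hu htu
    -- the rational parametrisation `u ↦ 2 u τ / (1 + τ²)`, `v = u (1 - τ²) / (1 + τ²)`
    let Y : Fin 7 → Polynomial ℝ := ![1 + Polynomial.X ^ 2, Polynomial.C t * (1 + Polynomial.X ^ 2),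
      Polynomial.C (t ^ 2) * (1 + Polynomial.X ^ 2), Polynomial.C (2 * u) * Polynomial.X,
      Polynomial.C (2 * t * u) * Polynomial.X, Polynomial.C u * (1 - Polynomial.X ^ 2),
      Polynomial.C (t * u) * (1 - Polynomial.X ^ 2)]
    let G : Fin r → Polynomial ℝ := fun j => aeval Y (g j)
    have hGev : ∀ j τ, (G j).eval τ = eval (fun l => (Y l).eval τ) (g j) := by
      intro j τ
      rw [polynomial_eval_aeval]
    have hYpt : ∀ τ : ℝ, (fun l => (Y l).eval τ) =
        fun l => (1 + τ ^ 2) * pt 1 t (2 * u * τ / (1 + τ ^ 2)) (u * (1 - τ ^ 2) / (1 + τ ^ 2)) l := by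
      intro τ
      have h1 : (1 + τ ^ 2) ≠ 0 := by positivity
      funext l
      fin_cases l <;> simp [Y, pt] <;> field_simp
    have hsum : ∑ j, G j ^ 2 = Polynomial.C ((4 * u ^ 2 * (4 - t ^ 2)) ^ k) * Polynomial.X ^ (2 * k) := by
      apply Polynomial.funext
      intro τ
      have h1 : (1 + τ ^ 2) ≠ 0 := by positivity
      have h2 := h 1 t (2 * u * τ / (1 + τ ^ 2)) (u * (1 - τ ^ 2) / (1 + τ ^ 2)) (by
        field_simp
        linear_combination ((1 + τ ^ 2) ^ 2) * htu)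
      rw [Polynomial.eval_finsetSum]
      simp only [Polynomial.eval_pow, Polynomial.eval_mul, Polynomial.eval_C, Polynomial.eval_X]
      have h3 : ∀ j, (G j).eval τ ^ 2 = ((1 + τ ^ 2) ^ k) ^ 2 *
          (eval (pt 1 t (2 * u * τ / (1 + τ ^ 2)) (u * (1 - τ ^ 2) / (1 + τ ^ 2))) (g j)) ^ 2 := by
        intro j
        rw [hGev, hYpt, eval_smul_of_homogeneous _ _ (hg j), mul_pow]
      rw [Finset.sum_congr rfl (fun j _ => h3 j), ← Finset.mul_sum, ← h2, ← pow_mul, mul_comm k 2,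
        pow_mul, pow_mul, ← mul_pow, ← mul_pow]
      congr 1
      field_simp
      ring
    have hdvd := X_pow_dvd_of_sum_sq Finset.univ k G
      (by rw [hsum]; exact ⟨Polynomial.C ((4 * u ^ 2 * (4 - t ^ 2)) ^ k), by ring⟩)
    have hR : ∀ j, ∃ R : Polynomial ℝ, G j = Polynomial.X ^ k * R := fun j => hdvd j (Finset.mem_univ j)
    choose R hR using hR
    have hRsum : ∑ j, R j ^ 2 = Polynomial.C ((4 * u ^ 2 * (4 - t ^ 2)) ^ k) := by
      have h1 : (∑ j, R j ^ 2) * Polynomial.X ^ (2 * k) =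
          Polynomial.C ((4 * u ^ 2 * (4 - t ^ 2)) ^ k) * Polynomial.X ^ (2 * k) := by
        rw [← hsum, Finset.sum_mul]
        refine Finset.sum_congr rfl (fun j _ => ?_)
        rw [hR j]
        ring
      exact mul_right_cancel₀ (pow_ne_zero _ Polynomial.X_ne_zero) h1
    obtain ⟨a, ha⟩ := const_of_sum_sq Finset.univ R _ hRsum i (Finset.mem_univ i)
    have h1 := hGev i 1
    have h2 := hGev i (-1)
    rw [hYpt, eval_smul_of_homogeneous _ _ (hg i), hR i, ha] at h1 h2
    norm_num at h1 h2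
    rw [hk.neg_one_pow] at h2
    have e2 : -(2 * u) / 2 = -u := by ring
    rw [e2] at h2
    have h3 : (2 : ℝ) ^ k ≠ 0 := by positivity
    apply mul_left_cancel₀ h3
    rw [mul_neg, ← h1, ← h2]
    ring
  have hEO := fun i => exists_E_O (g i)
  choose E O hEO using hEO
  -- polynomial identity on `(0, 1)`
  have hid : (1 - Polynomial.X ^ 2) * ∑ i, O i ^ 2 =
      ((1 - Polynomial.X ^ 2) * (4 - (Polynomial.X : Polynomial ℝ) ^ 2)) ^ k := by
    apply Polynomial.eq_of_infinite_eval_eq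
    apply Set.Infinite.mono _ (Set.Ioo_infinite (show (0 : ℝ) < 1 by norm_num))
    rintro t ⟨ht0, ht1⟩
    have hpos : 0 < 1 - t ^ 2 := by nlinarith
    set u := Real.sqrt (1 - t ^ 2) with hu
    have hu0 : 0 < u := Real.sqrt_pos.mpr hpos
    have hu2 : u ^ 2 = 1 - t ^ 2 := Real.sq_sqrt hpos.le
    have htu : u ^ 2 + t ^ 2 = 1 := by rw [hu2]; ring
    have hE0 : ∀ i, (E i).eval t = 0 := by
      intro i
      have h1 := hodd i t u hu0 htu
      rw [hEO i t u htu, hEO i t (-u) (by rw [neg_sq]; exact htu)] at h1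
      linarith
    have h2 := h 1 t u 0 (by linear_combination htu)
    change Polynomial.eval t _ = Polynomial.eval t _
    simp only [Polynomial.eval_mul, Polynomial.eval_sub, Polynomial.eval_pow, Polynomial.eval_X,
      Polynomial.eval_finsetSum, Polynomial.eval_one, Polynomial.eval_ofNat]
    rw [← hu2]
    have h3 : ∑ i, (eval (pt 1 t u 0) (g i)) ^ 2 = u ^ 2 * ∑ i, (O i).eval t ^ 2 := by
      rw [Finset.mul_sum]
      refine Finset.sum_congr rfl (fun i _ => ?_)
      rw [hEO i t u htu, hE0 i]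
      ring
    rw [← h3, ← h2]
    ring
  have h3 := congrArg (Polynomial.eval 3) hid
  simp only [Polynomial.eval_mul, Polynomial.eval_sub, Polynomial.eval_pow, Polynomial.eval_X,
      Polynomial.eval_finsetSum, Polynomial.eval_one, Polynomial.eval_ofNat] at h3
  norm_num at h3
  have h4 : 0 ≤ ∑ i, (O i).eval 3 ^ 2 := Finset.sum_nonneg (fun i _ => sq_nonneg _)
  have h5 : (0 : ℝ) < 40 ^ k := by positivity
  linarith

lemma mk_mem_piece {n : ℕ} (I : Ideal (MvPolynomial (Fin (n + 1)) ℝ)) (m : ℕ)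
    (f : MvPolynomial (Fin (n + 1)) ℝ) (hf : f.IsHomogeneous m) :
    Ideal.Quotient.mk I f ∈ piece I m :=
  ⟨f, hf, rfl⟩

lemma exists_rep {n : ℕ} (I : Ideal (MvPolynomial (Fin (n + 1)) ℝ)) (m : ℕ) (F : CoordRing I)
    (hF : F ∈ piece I m) : ∃ f : MvPolynomial (Fin (n + 1)) ℝ, f.IsHomogeneous m ∧
      Ideal.Quotient.mk I f = F := by
  obtain ⟨f, hf, rfl⟩ := hF
  exact ⟨f, hf, rfl⟩

lemma nonneg_iff {n : ℕ} (I : Ideal (MvPolynomial (Fin (n + 1)) ℝ))
    (f : MvPolynomial (Fin (n + 1)) ℝ) :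
    Nonneg I (Ideal.Quotient.mk I f) ↔ ∀ x ∈ realZeros I, 0 ≤ eval x f := by
  refine ⟨fun h => h f rfl, fun h g hg x hx => ?_⟩
  have h1 : g - f ∈ I := Ideal.Quotient.eq.mp hg
  have h2 := hx _ h1
  rw [map_sub, sub_eq_zero] at h2
  rw [h2]
  exact h x hx

lemma nonneg_add {n : ℕ} (I : Ideal (MvPolynomial (Fin (n + 1)) ℝ)) {F G : CoordRing I}
    (hF : Nonneg I F) (hG : Nonneg I G) : Nonneg I (F + G) := by
  obtain ⟨f, rfl⟩ := Ideal.Quotient.mk_surjective F
  obtain ⟨g, rfl⟩ := Ideal.Quotient.mk_surjective G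
  rw [nonneg_iff] at hF hG
  rw [← map_add, nonneg_iff]
  intro x hx
  rw [map_add]
  exact add_nonneg (hF x hx) (hG x hx)

lemma nonneg_smul {n : ℕ} (I : Ideal (MvPolynomial (Fin (n + 1)) ℝ)) {F : CoordRing I} (a : ℝ)
    (ha : 0 ≤ a) (hF : Nonneg I F) : Nonneg I (a • F) := by
  obtain ⟨f, rfl⟩ := Ideal.Quotient.mk_surjective F
  rw [nonneg_iff] at hF
  have : a • Ideal.Quotient.mk I f = Ideal.Quotient.mk I (a • f) := rfl
  rw [this, nonneg_iff]
  intro x hx
  rw [smul_eval]
  exact mul_nonneg ha (hF x hx)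

lemma cone_add {n : ℕ} (I : Ideal (MvPolynomial (Fin (n + 1)) ℝ)) {F G : CoordRing I}
    (hF : F ∈ nonnegCone I) (hG : G ∈ nonnegCone I) : F + G ∈ nonnegCone I :=
  ⟨Submodule.add_mem _ hF.1 hG.1, nonneg_add I hF.2 hG.2⟩

lemma cone_smul {n : ℕ} (I : Ideal (MvPolynomial (Fin (n + 1)) ℝ)) {F : CoordRing I} (a : ℝ)
    (ha : 0 ≤ a) (hF : F ∈ nonnegCone I) : a • F ∈ nonnegCone I :=
  ⟨Submodule.smul_mem _ _ hF.1, nonneg_smul I a ha hF.2⟩

/-- The smallest face of `P_X` containing a given `F`. -/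
def faceOf {n : ℕ} (I : Ideal (MvPolynomial (Fin (n + 1)) ℝ)) (F : CoordRing I) :
    Set (CoordRing I) :=
  {G | G ∈ nonnegCone I ∧ ∃ c : ℝ, 0 < c ∧ c • F - G ∈ nonnegCone I}

lemma faceOf_isFace {n : ℕ} (I : Ideal (MvPolynomial (Fin (n + 1)) ℝ)) (F : CoordRing I)
    (hF : F ∈ nonnegCone I) : IsFace (nonnegCone I) (faceOf I F) := by
  have hzero : (0 : CoordRing I) ∈ nonnegCone I := by
    have := cone_smul I 0 le_rfl hF
    rwa [zero_smul] at this
  refine ⟨⟨F, hF, 1, one_pos, ?_⟩, ?_, ?_, ?_⟩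
  · rw [one_smul, sub_self]
    exact hzero
  · rintro A ⟨hA, c, hc, hcA⟩ B ⟨hB, d, hd, hdB⟩ a b ha hb hab
    refine ⟨cone_add I (cone_smul I a ha hA) (cone_smul I b hb hB), a * c + b * d, ?_, ?_⟩
    · rcases ha.lt_or_eq with h | h
      · have := mul_pos h hc
        have := mul_nonneg hb hd.le
        linarith
      · have hb1 : b = 1 := by rw [← h] at hab; linarith
        rw [← h, hb1]
        linarith
    · have := cone_add I (cone_smul I a ha hcA) (cone_smul I b hb hdB)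
      have h2 : (a * c + b * d) • F - (a • A + b • B) = a • (c • F - A) + b • (d • F - B) := by
        module
      rw [h2]
      exact this
  · exact fun A hA => hA.1
  · rintro A hA B hB C ⟨hC, c, hc, hcC⟩ ⟨a, b, ha, hb, hab, habC⟩
    refine ⟨hA, c / a, by positivity, ?_⟩
    have h1 := cone_smul I (1 / a) (by positivity) (cone_add I hcC (cone_smul I b hb.le hB))
    have h2 : (c / a) • F - A = (1 / a) • (c • F - C + b • B) := by
      rw [← habC]
      have ha' : a ≠ 0 := ha.ne'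
      have h3 : (1 / a) • (a • A) = A := by
        rw [smul_smul, one_div, inv_mul_cancel₀ ha', one_smul]
      have h4 : (1 / a) • (c • F - (a • A + b • B) + b • B) = (1 / a) • (c • F) - (1 / a) • (a • A) := by
        module
      rw [h4, h3, smul_smul]
      congr 2
      ring
    rw [h2]
    exact h1

/-- Elements bounding the defining element of a face from above lie in its relative interior. -/
lemma mem_relInterior {n : ℕ} (I : Ideal (MvPolynomial (Fin (n + 1)) ℝ)) (F G : CoordRing I)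
    (hG : G ∈ faceOf I F) (d : ℝ) (hd : 0 < d) (hGF : d • G - F ∈ nonnegCone I) :
    G ∈ relInterior (faceOf I F) := by
  refine ⟨hG, ?_⟩
  rintro H ⟨hH, c, hc, hcH⟩
  refine ⟨1 / (c * d), by positivity, ?_⟩
  -- `G + ε (G - H)` is nonnegative
  have h1 : G + (1 / (c * d)) • (G - H) =
      (1 / (c * d)) • G + (1 / (c * d)) • ((c • F - H) + c • (d • G - F)) := by
    have hcd : c * d ≠ 0 := by positivity
    have h3 : (1 / (c * d)) • ((c • F - H) + c • (d • G - F)) =
        ((1 / (c * d)) * (c * d)) • G - (1 / (c * d)) • H := by module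
    rw [h3, one_div, inv_mul_cancel₀ hcd]
    module
  obtain ⟨hG1, e, he, heG⟩ := hG
  have hmem : G + (1 / (c * d)) • (G - H) ∈ nonnegCone I := by
    rw [h1]
    exact cone_add I (cone_smul I _ (by positivity) hG1)
      (cone_smul I _ (by positivity) (cone_add I hcH (cone_smul I c hc.le hGF)))
  refine ⟨hmem, (1 + 1 / (c * d)) * e, by positivity, ?_⟩
  have h2 : ((1 + 1 / (c * d)) * e) • F - (G + (1 / (c * d)) • (G - H)) =
      (1 + 1 / (c * d)) • (e • F - G) + (1 / (c * d)) • H := by module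
  rw [h2]
  exact cone_add I (cone_smul I _ (by positivity) heG) (cone_smul I _ (by positivity) hH)

lemma f₁_hom : f₁.IsHomogeneous 2 :=
  ((isHomogeneous_X _ _).pow 2).add ((isHomogeneous_X _ _).pow 2)

lemma f₂_hom : f₂.IsHomogeneous 2 := by
  have := ((isHomogeneous_C (Fin 7) (4 : ℝ)).mul ((isHomogeneous_X ℝ (3 : Fin 7)).pow 2)).sub
    ((isHomogeneous_X ℝ (4 : Fin 7)).pow 2)
  simpa [f₂] using this

/-- **Main result.**  `X ⊆ ℙ⁶` (given by the ideal `surf`) is totally real, and there is a face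
`𝓕` of the cone `P_X` of nonnegative quadratic forms on `X` whose relative interior contains both
`F₁ = (su)² + (tu)²`, which is a sum of squares and hence not stubborn, and `F₂ = u² (4 s² - t²)`,
which is stubborn. -/
theorem result :
    IsTotallyReal (n := 6) surf ∧
      ∃ 𝓕 : Set (CoordRing (n := 6) surf), IsFace (nonnegCone surf) 𝓕 ∧
        Ideal.Quotient.mk surf f₁ ∈ relInterior 𝓕 ∧ Ideal.Quotient.mk surf f₂ ∈ relInterior 𝓕 ∧
          IsSOS (n := 6) surf 1 (Ideal.Quotient.mk surf f₁) ∧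
          ¬ IsStubborn (n := 6) surf 1 (Ideal.Quotient.mk surf f₁) ∧
          IsStubborn (n := 6) surf 1 (Ideal.Quotient.mk surf f₂) := by
  have hf1 : Ideal.Quotient.mk surf f₁ ∈ nonnegCone (n := 6) surf := by
    refine ⟨mk_mem_piece _ _ _ f₁_hom, ?_⟩
    rw [nonneg_iff]
    intro y _
    simp only [f₁, map_add, map_pow, eval_X]
    positivity
  have hf2 : Ideal.Quotient.mk surf f₂ ∈ nonnegCone (n := 6) surf := by
    refine ⟨mk_mem_piece _ _ _ f₂_hom, ?_⟩
    rw [nonneg_iff]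
    intro y hy
    have := rel y hy
    simp only [f₂, map_sub, map_mul, map_pow, eval_X, eval_C]
    nlinarith [sq_nonneg (y 3)]
  have h21 : (1 : ℝ) • Ideal.Quotient.mk surf f₂ - Ideal.Quotient.mk surf f₁ ∈
      nonnegCone (n := 6) surf := by
    refine ⟨Submodule.sub_mem _ (Submodule.smul_mem _ _ hf2.1) hf1.1, ?_⟩
    rw [one_smul, ← map_sub, nonneg_iff]
    intro y hy
    have := rel y hy
    simp only [f₁, f₂, map_sub, map_add, map_mul, map_pow, eval_X, eval_C]
    nlinarith [sq_nonneg (y 3), sq_nonneg (y 4)]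
  have h12 : (4 : ℝ) • Ideal.Quotient.mk surf f₁ - Ideal.Quotient.mk surf f₂ ∈
      nonnegCone (n := 6) surf := by
    refine ⟨Submodule.sub_mem _ (Submodule.smul_mem _ _ hf1.1) hf2.1, ?_⟩
    have : (4 : ℝ) • Ideal.Quotient.mk surf f₁ - Ideal.Quotient.mk surf f₂ =
      Ideal.Quotient.mk surf ((4 : ℝ) • f₁ - f₂) := rfl
    rw [this, nonneg_iff]
    intro y hy
    have := rel y hy
    simp only [f₁, f₂, smul_eval, map_sub, map_add, map_mul, map_pow, eval_X, eval_C]
    nlinarith [sq_nonneg (y 3), sq_nonneg (y 4)]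
  have hsos : IsSOS (n := 6) surf 1 (Ideal.Quotient.mk surf f₁) := by
    refine ⟨2, ![Ideal.Quotient.mk surf (X 3), Ideal.Quotient.mk surf (X 4)], ?_, ?_⟩
    · intro i
      fin_cases i
      · exact mk_mem_piece _ _ _ (isHomogeneous_X _ _)
      · exact mk_mem_piece _ _ _ (isHomogeneous_X _ _)
    · rw [Fin.sum_univ_two]
      simp [f₁]
  refine ⟨surf_totallyReal, faceOf surf (Ideal.Quotient.mk surf f₁),
    faceOf_isFace _ _ hf1, ?_, ?_, hsos, ?_, ?_⟩
  · refine mem_relInterior _ _ _ ⟨hf1, 1, one_pos, ?_⟩ 1 one_pos ?_ <;>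
    · rw [one_smul, sub_self]
      have := cone_smul surf 0 le_rfl hf1
      rwa [zero_smul] at this
  · exact mem_relInterior _ _ _ ⟨hf2, 4, by norm_num, h12⟩ 1 one_pos h21
  · rintro ⟨-, -, h⟩
    apply h 1 odd_one
    rw [pow_one, mul_one]
    exact hsos
  · refine ⟨hf2.1, hf2.2, ?_⟩
    rintro k hk ⟨r, G, hG, hsum⟩
    have hrep := fun i => exists_rep _ _ _ (hG i)
    choose g hg hgG using hrep
    rw [one_mul] at hg
    have h1 : f₂ ^ k - ∑ i, g i ^ 2 ∈ surf := by
      rw [← Ideal.Quotient.eq, map_pow, map_sum, hsum]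
      refine Finset.sum_congr rfl (fun i _ => ?_)
      rw [map_pow, hgG]
    refine stubborn_aux k hk r g hg ?_
    intro s t u v h
    have h2 := h1 s t u v h
    rw [map_sub, map_pow, map_sum, sub_eq_zero] at h2
    simp only [map_pow] at h2
    rw [← h2]
    congr 1
    simp [f₂, pt]
    ring

end Pool.Agent.Results.MP_982b0b_ag.MixedFace
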